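import Mathlib

/-!
OM stage 2, L6 (MP_ad1693_nt). A lower bound for a circle average. On `|w| = R` one has `|w - i R| |w + i R| = 2 R |Re w|`, so that the average of
`log |Re w|` is `log R - log 2`; the average of `(Re w)²` is `R² / 2`.
(helper91)
-/

set_option autoImplicit false

open MeasureTheory Metric Set

namespace Pool.Agent.Helper16.OM

private lemma re_circle (R θ : ℝ) : (circleMap 0 R θ).re = R * Real.cos θ := by
  rw [circleMap, zero_add, Complex.re_ofReal_mul, Complex.exp_ofReal_mul_I_re]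

private lemma avg_re_sq (R : ℝ) : Real.circleAverage (fun w : ℂ => w.re ^ 2) 0 R = R ^ 2 / 2 := by
  rw [Real.circleAverage_def]
  have h1 : ∀ θ : ℝ, ((circleMap 0 R θ).re) ^ 2 = R ^ 2 * Real.cos θ ^ 2 := by
    intro θ
    rw [re_circle, mul_pow]
  simp_rw [h1]
  rw [intervalIntegral.integral_const_mul, integral_cos_sq]
  have hpi := Real.pi_ne_zero
  rw [Real.cos_two_pi, Real.sin_two_pi, Real.sin_zero, Real.cos_zero, smul_eq_mul]
  field_simp
  ring

private lemma log_re (R : ℝ) (hR : 0 < R) (w : ℂ) (hw : ‖w‖ = R) (h0 : w.re ≠ 0) :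
    Real.log ‖w - Complex.I * R‖ + Real.log ‖w - -(Complex.I * R)‖ =
      Real.log 2 + Real.log R + Real.log |w.re| := by
  have h1 : w.re ^ 2 + w.im ^ 2 = R ^ 2 := by
    have h2 := Complex.sq_norm w
    rw [hw, Complex.normSq_apply] at h2
    linarith
  have e1 : ‖w - Complex.I * R‖ * ‖w - -(Complex.I * R)‖ = 2 * R * |w.re| := by
    rw [← norm_mul]
    have e2 : (w - Complex.I * R) * (w - -(Complex.I * R)) = w ^ 2 + (R : ℂ) ^ 2 := by
      have : Complex.I ^ 2 = -1 := Complex.I_sq
      linear_combination (-(R : ℂ) ^ 2) * this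
    have e3 : w ^ 2 + (R : ℂ) ^ 2 = (2 * w.re : ℂ) * w := by
      apply Complex.ext
      · simp only [sq, Complex.add_re, Complex.mul_re, Complex.ofReal_re, Complex.ofReal_im,
          Complex.re_ofNat, Complex.im_ofNat, Complex.mul_im]
        linarith
      · simp only [sq, Complex.add_im, Complex.mul_re, Complex.ofReal_re, Complex.ofReal_im,
          Complex.re_ofNat, Complex.im_ofNat, Complex.mul_im]
        ring
    rw [e2, e3, norm_mul, hw, norm_mul, Complex.norm_real, Complex.norm_ofNat, Real.norm_eq_abs]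
    ring
  have e4 : 0 < ‖w - Complex.I * R‖ * ‖w - -(Complex.I * R)‖ := by
    rw [e1]
    have := abs_pos.2 h0
    positivity
  have e5 : ‖w - Complex.I * R‖ ≠ 0 := fun h => by rw [h, zero_mul] at e4; exact lt_irrefl _ e4
  have e6 : ‖w - -(Complex.I * R)‖ ≠ 0 := fun h => by rw [h, mul_zero] at e4; exact lt_irrefl _ e4
  rw [← Real.log_mul e5 e6, e1, Real.log_mul (by positivity) (abs_pos.2 h0).ne',
    Real.log_mul two_ne_zero hR.ne']

private lemma avg_le_of_re (R : ℝ) (f g : ℂ → ℝ) (hf : CircleIntegrable f 0 R)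
    (hg : CircleIntegrable g 0 R) (hR : 0 < R)
    (h : ∀ w : ℂ, ‖w‖ = R → w.re ≠ 0 → g w ≤ f w) :
    Real.circleAverage g 0 R ≤ Real.circleAverage f 0 R := by
  rw [Real.circleAverage_def, Real.circleAverage_def, smul_eq_mul, smul_eq_mul]
  refine mul_le_mul_of_nonneg_left ?_ (by positivity)
  refine intervalIntegral.integral_mono_ae Real.two_pi_pos.le hg hf ?_
  have hc : {θ : ℝ | Real.cos θ = 0}.Countable := by
    refine (Set.countable_range (fun k : ℤ => (2 * (k : ℝ) + 1) * Real.pi / 2)).mono ?_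
    intro θ hθ
    obtain ⟨k, hk⟩ := Real.cos_eq_zero_iff.1 hθ
    exact ⟨k, hk.symm⟩
  have h0 : ∀ᵐ θ : ℝ, Real.cos θ ≠ 0 := by
    rw [ae_iff]
    simpa using hc.measure_zero volume
  filter_upwards [h0] with θ hθ
  refine h _ ?_ ?_
  · rw [norm_circleMap_zero, abs_of_pos hR]
  · rw [re_circle]
    exact mul_ne_zero hR.ne' hθ

theorem circle_lower (R : ℝ) (hR : 1 ≤ R) (f : ℂ → ℝ) (hf : CircleIntegrable f 0 R) (A B : ℝ)
    (hB : 0 ≤ B)
    (h : ∀ w : ℂ, ‖w‖ = R → w.re ≠ 0 →
      w.re ^ 2 / R * Real.log R - A * R - B * R * (Real.log R - Real.log |w.re|) ≤ f w) :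
    R / 2 * Real.log R - A * R - B * R * Real.log 2 ≤ Real.circleAverage f 0 R := by
  have hR0 : 0 < R := by linarith
  obtain ⟨l1, hl1⟩ : ∃ l1 : ℂ → ℝ, l1 = fun w => Real.log ‖w - Complex.I * R‖ := ⟨_, rfl⟩
  obtain ⟨l2, hl2⟩ : ∃ l2 : ℂ → ℝ, l2 = fun w => Real.log ‖w - -(Complex.I * R)‖ := ⟨_, rfl⟩
  have i1 : CircleIntegrable l1 0 R := by
    rw [hl1]
    exact circleIntegrable_log_norm_sub_const R
  have i2 : CircleIntegrable l2 0 R := by
    rw [hl2]
    exact circleIntegrable_log_norm_sub_const R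
  have i3 : CircleIntegrable (fun w : ℂ => w.re ^ 2) 0 R :=
    (by fun_prop : Continuous fun w : ℂ => w.re ^ 2).continuousOn.circleIntegrable hR0.le
  have a1 : Real.circleAverage l1 0 R = Real.log R := by
    rw [hl1]
    apply circleAverage_log_norm_sub_const_of_mem_closedBall
    rw [mem_closedBall, dist_zero_right, norm_mul, Complex.norm_I, one_mul, Complex.norm_real,
      Real.norm_eq_abs]
  have a2 : Real.circleAverage l2 0 R = Real.log R := by
    rw [hl2]
    apply circleAverage_log_norm_sub_const_of_mem_closedBall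
    rw [mem_closedBall, dist_zero_right, norm_neg, norm_mul, Complex.norm_I, one_mul,
      Complex.norm_real, Real.norm_eq_abs]
  obtain ⟨g, hg⟩ : ∃ g : ℂ → ℝ, g = (fun w => (Real.log R / R) • w.re ^ 2) +
      ((fun w => (B * R) • l1 w) + ((fun w => (B * R) • l2 w) +
        fun _ => -(A * R) - B * R * (2 * Real.log R + Real.log 2))) := ⟨_, rfl⟩
  have j1 : CircleIntegrable (fun w : ℂ => (Real.log R / R) • w.re ^ 2) 0 R :=
    i3.const_fun_smul
  have j2 : CircleIntegrable (fun w : ℂ => (B * R) • l1 w) 0 R := i1.const_fun_smul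
  have j3 : CircleIntegrable (fun w : ℂ => (B * R) • l2 w) 0 R := i2.const_fun_smul
  have j4 : CircleIntegrable (fun _ : ℂ => -(A * R) - B * R * (2 * Real.log R + Real.log 2)) 0 R :=
    circleIntegrable_const _ _ _
  have ig : CircleIntegrable g 0 R := by
    rw [hg]
    exact j1.add (j2.add (j3.add j4))
  have ag : Real.circleAverage g 0 R = R / 2 * Real.log R - A * R - B * R * Real.log 2 := by
    rw [hg, Real.circleAverage_add j1 (j2.add (j3.add j4)), Real.circleAverage_add j2 (j3.add j4),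
      Real.circleAverage_add j3 j4, Real.circleAverage_fun_smul, Real.circleAverage_fun_smul,
      Real.circleAverage_fun_smul, avg_re_sq, Real.circleAverage_const]
    rw [a1, a2, smul_eq_mul, smul_eq_mul]
    field_simp
    ring
  rw [← ag]
  refine avg_le_of_re R f g hf ig hR0 fun w hw h0 => le_trans (le_of_eq ?_) (h w hw h0)
  have h1 := log_re R hR0 w hw h0
  rw [hg]
  simp only [Pi.add_apply, smul_eq_mul, hl1, hl2]
  linear_combination (B * R) * h1

end Pool.Agent.Helper16.OM
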