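import Pool.Agent.Helper16.OM.Little

/-!
OM stage 2, L8 (MP_ad1693_nt). The correction `Rf` and the product over the small primes are bounded in `Re w ≥ 0`.
(helper91)
-/

set_option autoImplicit false

namespace Pool.Agent.Helper16.OM

open Complex Filter Topology
open Pool.Agent.Helper13.Bsd Pool.Agent.Helper7.GW Pool.Agent.Helper58.BSD Pool.Agent.Helper29.MS

variable {N : ℕ → ℕ} {bad : ℕ → Prop} [DecidablePred bad]

private lemma norm_X_le (p : ℕ) (hp : p.Prime) (w : ℂ) (hw : 0 ≤ w.re) : ‖(p : ℂ) ^ (-w)‖ ≤ 1 := by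
  have hp0 : 0 < p := hp.pos
  rw [norm_natCast_cpow_of_pos hp0, neg_re]
  exact Real.rpow_le_one_of_one_le_of_nonpos (by exact_mod_cast hp0) (by linarith)

private lemma alp_le (hN : NHyp N) (p : ℕ) (hp : p.Prime) : |alp N p| ≤ 14 := by
  have hp1 : (1 : ℝ) ≤ p := by exact_mod_cast hp.one_lt.le
  have hp0 : (0 : ℝ) < p := by linarith
  have h1 := hN.bd p hp
  have h2 : Real.sqrt p ≤ p := by
    rw [Real.sqrt_le_left (by linarith)]
    nlinarith
  rw [alp, abs_div, abs_of_pos hp0, div_le_iff₀ hp0]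
  linarith

private lemma factor_le (hN : NHyp N) (p : ℕ) (hp : p.Prime) (w : ℂ) (hw : 0 ≤ w.re) :
    ‖(1 : ℂ) - zz N p w‖ ≤ 16 := by
  have h1 := norm_X_le p hp w hw
  have h2 := alp_le hN p hp
  have hp1 : (1 : ℝ) ≤ p := by exact_mod_cast hp.one_lt.le
  have h3 : (p : ℝ)⁻¹ ≤ 1 := inv_le_one_of_one_le₀ hp1
  have h4 : ‖zz N p w‖ ≤ 15 := by
    rw [zz]
    refine (norm_sub_le _ _).trans ?_
    rw [norm_mul, norm_mul, norm_pow, norm_real, norm_real, Real.norm_eq_abs, Real.norm_eq_abs,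
      abs_of_nonneg (by positivity : (0 : ℝ) ≤ (p : ℝ)⁻¹)]
    have e1 : |alp N p| * ‖(p : ℂ) ^ (-w)‖ ≤ 14 * 1 :=
      mul_le_mul h2 h1 (norm_nonneg _) (by norm_num)
    have e2 : (p : ℝ)⁻¹ * ‖(p : ℂ) ^ (-w)‖ ^ 2 ≤ 1 * 1 :=
      mul_le_mul h3 (pow_le_one₀ (norm_nonneg _) h1) (by positivity) (by norm_num)
    linarith
  calc ‖(1 : ℂ) - zz N p w‖ ≤ ‖(1 : ℂ)‖ + ‖zz N p w‖ := norm_sub_le _ _
    _ ≤ 16 := by rw [norm_one]; linarith

theorem Rf_Pr_bdd (hN : NHyp N) : ∃ C : ℝ, 0 < C ∧ ∀ w : ℂ, 0 ≤ w.re →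
    ‖Rf N bad w‖ ≤ C ∧
      ‖∏ p ∈ smallP, if bad (p : ℕ) then (1 : ℂ) else 1 - zz N p w‖ ≤ C := by
  have hs : Summable (fun p : Nat.Primes => 2000 * ((p : ℕ) : ℝ) ^ (-(147 / 100) : ℝ)) :=
    (summable_primes_rpow (by norm_num)).mul_left _
  refine ⟨max (∑' p : Nat.Primes, 2000 * ((p : ℕ) : ℝ) ^ (-(147 / 100) : ℝ)) (16 ^ smallP.card),
    lt_max_of_lt_right (by positivity), fun w hw => ⟨le_max_of_le_left ?_, le_max_of_le_right ?_⟩⟩
  · exact tsum_of_norm_bounded hs.hasSum fun p => rterm_bound hN p p.2 w (by linarith)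
  · rw [norm_prod]
    calc ∏ p ∈ smallP, ‖if bad (p : ℕ) then (1 : ℂ) else 1 - zz N p w‖
        ≤ ∏ _p ∈ smallP, (16 : ℝ) := by
          refine Finset.prod_le_prod (fun _ _ => norm_nonneg _) fun p _ => ?_
          split_ifs with h
          · rw [norm_one]; norm_num
          · exact factor_le hN p p.2 w hw
      _ = 16 ^ smallP.card := by rw [Finset.prod_const]

end Pool.Agent.Helper16.OM
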